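import Pool.Agent.Y990.CB.Basic
import Pool.Agent.Y288.PL.Tight

set_option autoImplicit false

open MeasureTheory Set

/-!
Two large clusters in a box (project CB of helper990): proof of `S_box` from its parts.
-/

namespace Pool.Agent.Y689.CB

open Pool.Agent.W783.PC (pm DepOn Inc)
open Pool.Agent.W424.PC (cfgOf)
open Pool.Agent.Y990.PL (Expl)
open Pool.Agent.Y990.CB
open H974 (Ex Ok ind Pr)

noncomputable section

/-- The functional `Nf` is decreasing. -/
lemma Nf_anti {E W : Type} {m : ℕ} (hm : 1 ≤ m) {B : Finset W} {C : W → Finset E → Set W}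
    (hB : ∀ u ∈ B, ∀ A, C u A ⊆ B) (hmono : ∀ u ∈ B, ∀ A A', A ⊆ A' → C u A ⊆ C u A')
    {A A' : Finset E} (h : A ⊆ A') : Nf m B C A' ≤ Nf m B C A := by
  unfold Nf
  refine Finset.sum_le_sum fun u hu => ?_
  have h1 : (C u A).ncard ≤ (C u A').ncard :=
    Set.ncard_le_ncard (hmono u hu A A' h) ((Finset.finite_toSet B).subset (hB u hu A'))
  have h2 : (0 : ℝ) < (max m (C u A).ncard : ℕ) := by
    have : 0 < max m (C u A).ncard := lt_of_lt_of_le hm (le_max_left _ _)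
    exact_mod_cast this
  refine one_div_le_one_div_of_le h2 ?_
  exact_mod_cast max_le_max le_rfl h1

/-- Two large clusters. -/
def Dv {d : ℕ} (M : Mod d) (L m : ℕ) (z x : Z d) : Set (M.ι → Bool) :=
  {ω | m ≤ (cl M ω (Bo 0 L) x).ncard ∧
    m ≤ (cl M ω (Bo 0 L) (z + x)).ncard ∧ z + x ∉ cl M ω (Bo 0 L) x}

lemma Dv_dep {d : ℕ} (M : Mod d) (L m : ℕ) (z x : Z d) :
    DepOn (Dv M L m z x) (In M (Bo 0 L)) := by
  intro ω ω' h
  unfold Dv cl
  simp only [mem_ofPred_eq]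
  rw [graph_congr h]

lemma cfg_mono {ι : Type} {F F' : Finset ι} (h : F ⊆ F') (c : ι) (hc : cfgOf F c = true) :
    cfgOf F' c = true := by
  classical
  unfold cfgOf at hc ⊢
  simp only [decide_eq_true_eq] at hc ⊢
  exact h hc

lemma cfg_true {ι : Type} {F : Finset ι} {c : ι} (h : c ∈ F) : cfgOf F c = true := by
  classical
  unfold cfgOf
  simp only [decide_eq_true_eq]
  exact h

/-- Sums over fibres of size at most three. -/
lemma sum_fib {α β : Type} [DecidableEq α] [DecidableEq β] (X : Finset α) (S : Finset β)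
    (g : α → β) (hg : ∀ x ∈ X, g x ∈ S) (h3 : ∀ c, {x : α | g x = c}.encard ≤ 3) (w : β → ℝ)
    (hw : ∀ c ∈ S, 0 ≤ w c) : ∑ x ∈ X, w (g x) ≤ 3 * ∑ c ∈ S, w c := by
  rw [← Finset.sum_fiberwise_of_maps_to hg, Finset.mul_sum]
  refine Finset.sum_le_sum fun c hc => ?_
  have e : ∑ x ∈ X with g x = c, w (g x) = ∑ x ∈ X with g x = c, w c :=
    Finset.sum_congr rfl fun x hx => by rw [(Finset.mem_filter.1 hx).2]
  rw [e, Finset.sum_const, nsmul_eq_mul]
  refine mul_le_mul_of_nonneg_right ?_ (hw c hc)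
  have h4 : ((X.filter fun x => g x = c : Finset α) : Set α) ⊆ {x : α | g x = c} := by
    intro x hx
    rw [Finset.mem_coe, Finset.mem_filter] at hx
    exact hx.2
  have h5 := (Set.encard_le_encard h4).trans (h3 c)
  rw [Set.encard_coe_eq_coe_finsetCard] at h5
  have h6 : (X.filter fun x => g x = c).card ≤ 3 := by exact_mod_cast h5
  exact_mod_cast h6

open scoped Classical in
theorem box_core (h1 : S_ibp) (h2 : S_tel) (h3 : S_merge) (h4 : S_expl) (h5 : S_offs)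
    {d : ℕ} (M : Mod d) (p : unitInterval) (L m : ℕ) (z : Z d) (X : Finset (Z d))
    (hm : 1 ≤ m) (hX : ∀ x ∈ X, x ∈ Bo (0 : Z d) L ∧ z + x ∈ Bo (0 : Z d) L) :
    (p : ℝ) ^ (2 * (d * nm z) + 1) * ∑ x ∈ X, (mu M p).real (Dv M L m z x) ≤
      ((2 * (d * nm z) : ℕ) : ℝ) * (3 * (8 * ((2 * L + 1 : ℕ) : ℝ) ^ d * √((4 * d : ℝ) / m))) := by
  obtain ⟨P, hP1, hP2, hP3⟩ := h5 d M z
  have hp0 : (0 : ℝ) ≤ p := p.2.1
  have hp1 : (p : ℝ) ≤ 1 := p.2.2
  have hok : Ok (fun _ : M.ι => (p : ℝ)) := fun _ => ⟨hp0, hp1⟩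
  set B : Finset (Z d) := Bf 0 L with hBdef
  have hBc : (B : Set (Z d)) = Bo 0 L := coe_Bf 0 L
  set S : Finset M.ι := (In_fin M (Bo_finite 0 L)).toFinset with hSdef
  have hS : (S : Set M.ι) = In M (Bo 0 L) := (In_fin M (Bo_finite 0 L)).coe_toFinset
  set C : Z d → Finset M.ι → Set (Z d) := fun u A => cl M (cfgOf A) (Bo 0 L) u with hC
  have hC1 : ∀ u ∈ B, ∀ A, C u A ⊆ B := by
    intro u hu A
    rw [hBc]
    exact cl_subset (mem_Bf.1 hu)
  have hC2 : ∀ u ∈ B, ∀ A, u ∈ C u A := fun u _ A => SimpleGraph.Reachable.refl u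
  have hC3 : ∀ u ∈ B, ∀ A, ∀ w ∈ C u A, C w A = C u A := fun u _ A w hw => cl_eq hw
  have hC4 : ∀ u ∈ B, ∀ A A', A ⊆ A' → C u A ⊆ C u A' := fun u _ A A' h =>
    cl_mono (cfg_mono h) (Subset.refl _) u
  set f : Finset M.ι → ℝ := Nf m B C with hf
  have hfa : ∀ A A', A ⊆ A' → f A' ≤ f A := fun A A' h => Nf_anti hm hC1 hC4 h
  set w : M.ι → ℝ := fun c => (p : ℝ) * (1 - p) *
    Ex (fun _ : M.ι => (p : ℝ)) S (fun A => f (A.erase c) - f (insert c A)) with hw
  have hw0 : ∀ c, 0 ≤ w c := by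
    intro c
    refine mul_nonneg (mul_nonneg hp0 (by linarith)) (H974.Ex_nonneg hok fun A _ => ?_)
    have := hfa (A.erase c) (insert c A)
      ((Finset.erase_subset c A).trans (Finset.subset_insert c A))
    linarith
  -- influence bound
  have hI : ∑ c ∈ S, w c ≤ 8 * B.card * √((4 * d : ℝ) / m) := by
    refine h1 M.ι (Z d) S (fun _ => (p : ℝ)) (4 * d) B C (tc M) hok (by positivity) ?_ hC1 hC2
      m hm
    intro u hu
    have := h4 d M p B u S hu (by rw [hBc]; exact hS)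
    rw [hBc] at this
    exact this
  -- one place
  have hx : ∀ x ∈ X, (p : ℝ) ^ (2 * (d * nm z) + 1) * (mu M p).real (Dv M L m z x) ≤
      ∑ c ∈ P, w (M.tr (sf x) c) := by
    intro x hx
    obtain ⟨hx1, hx2⟩ := hX x hx
    obtain ⟨hP4, hP5⟩ := hP2 0 L x hx1 hx2
    have hPS : P.image (M.tr (sf x)) ⊆ S := by
      intro c hc
      obtain ⟨c0, hc0, rfl⟩ := Finset.mem_image.1 hc
      have : (M.tr (sf x) c0) ∈ (S : Set M.ι) := by
        rw [hS]; exact hP4 c0 hc0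
      exact this
    have hcard : (P.image (M.tr (sf x))).card = P.card :=
      Finset.card_image_of_injective P (M.tr (sf x)).injective
    have hT := h2 M.ι S (P.image (M.tr (sf x))) (fun _ => (p : ℝ)) p f hok hPS hp0 hp1
      (fun _ _ => le_rfl) (fun A A' h _ => hfa A A' h)
    rw [Finset.sum_image (fun a _ b _ h => (M.tr (sf x)).injective h), hcard] at hT
    have hPr : (mu M p).real (Dv M L m z x) ≤
        Ex (fun _ : M.ι => (p : ℝ)) S (fun A => f A - f (A ∪ P.image (M.tr (sf x)))) := by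
      unfold mu
      have hdep : DepOn (Dv M L m z x) (S : Set M.ι) := by
        rw [hS]; exact Dv_dep M L m z x
      rw [Pool.Agent.Y288.PL.pm_eq_Pr (fun _ => p) hdep]
      refine H974.Ex_mono hok fun A hA => ?_
      by_cases hD : cfgOf A ∈ Dv M L m z x
      · rw [H974.ind_of hD]
        obtain ⟨hD1, hD2, hD3⟩ := hD
        refine h3 M.ι (Z d) B C m hm hC1 hC2 hC3 hC4 A (A ∪ P.image (M.tr (sf x)))
          Finset.subset_union_left x (mem_Bf.2 hx1) (z + x) (mem_Bf.2 hx2) hD1 hD2 hD3 ?_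
        refine hP5 _ fun c hc => cfg_true ?_
        exact Finset.mem_union_right _ (Finset.mem_image_of_mem _ hc)
      · rw [H974.ind_not_of hD]
        have := hfa A (A ∪ P.image (M.tr (sf x))) Finset.subset_union_left
        linarith
    have hpow : (p : ℝ) ^ (2 * (d * nm z) + 1) ≤ (p : ℝ) ^ (P.card + 1) :=
      pow_le_pow_of_le_one hp0 hp1 (by omega)
    have hnn : 0 ≤ (mu M p).real (Dv M L m z x) := measureReal_nonneg
    calc (p : ℝ) ^ (2 * (d * nm z) + 1) * (mu M p).real (Dv M L m z x)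
        ≤ (p : ℝ) ^ (P.card + 1) * (mu M p).real (Dv M L m z x) :=
          mul_le_mul_of_nonneg_right hpow hnn
      _ ≤ (p : ℝ) ^ (P.card + 1) *
          Ex (fun _ : M.ι => (p : ℝ)) S (fun A => f A - f (A ∪ P.image (M.tr (sf x)))) :=
          mul_le_mul_of_nonneg_left hPr (by positivity)
      _ ≤ _ := hT
  rw [Finset.mul_sum]
  have hsum : ∑ x ∈ X, (p : ℝ) ^ (2 * (d * nm z) + 1) * (mu M p).real (Dv M L m z x) ≤
      ∑ c ∈ P, (3 * ∑ c' ∈ S, w c') := by
    refine (Finset.sum_le_sum hx).trans ?_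
    rw [Finset.sum_comm]
    refine Finset.sum_le_sum fun c hc => ?_
    refine sum_fib X S (fun x => M.tr (sf x) c) ?_ (hP3 c hc) w (fun c _ => hw0 c)
    intro x hx'
    obtain ⟨hx1, hx2⟩ := hX x hx'
    have : (M.tr (sf x) c) ∈ (S : Set M.ι) := by
      rw [hS]; exact (hP2 0 L x hx1 hx2).1 c hc
    exact this
  refine hsum.trans ?_
  rw [Finset.sum_const, nsmul_eq_mul]
  have hB : (B.card : ℝ) = ((2 * L + 1 : ℕ) : ℝ) ^ d := by
    rw [hBdef, card_Bf]; push_cast; ring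
  rw [hB] at hI
  have hS0 : 0 ≤ ∑ c' ∈ S, w c' := Finset.sum_nonneg fun c _ => hw0 c
  refine mul_le_mul (by exact_mod_cast hP1) (mul_le_mul_of_nonneg_left hI (by norm_num))
    (by positivity) (by positivity)

theorem box (h1 : S_ibp) (h2 : S_tel) (h3 : S_merge) (h4 : S_expl) (h5 : S_offs) : S_box := by
  intro d M p hp
  have hp0 : (0 : ℝ) < p := by exact_mod_cast hp
  have hp1 : (p : ℝ) ≤ 1 := p.2.2
  set K : ℝ := 1 / (p : ℝ) with hK
  have hK1 : 1 ≤ K := by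
    rw [hK, le_div_iff₀ hp0]; linarith
  set a : ℝ := 48 * d + 1 with ha
  have ha1 : 1 ≤ a := by rw [ha]; have : (0 : ℝ) ≤ d := by positivity
                         linarith
  set b : ℝ := √(4 * d : ℝ) + 1 with hb
  have hb1 : 1 ≤ b := by rw [hb]; have := Real.sqrt_nonneg (4 * d : ℝ); linarith
  have hKd : 1 ≤ K ^ (2 * d + 1) := one_le_pow₀ hK1
  refine ⟨K ^ (2 * d + 1) * a * b * 2, ?_, ?_⟩
  · have e1 : 1 ≤ K ^ (2 * d + 1) * a := one_le_mul_of_one_le_of_one_le hKd ha1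
    have e2 : 1 ≤ K ^ (2 * d + 1) * a * b := one_le_mul_of_one_le_of_one_le e1 hb1
    linarith
  · intro L m z X hm hX
    have hc := box_core h1 h2 h3 h4 h5 M p L m z X hm hX
    change ∑ x ∈ X, (mu M p).real (Dv M L m z x) ≤ _
    set sm : ℝ := ∑ x ∈ X, (mu M p).real (Dv M L m z x) with hsmd
    set n : ℕ := nm z with hn
    have hm0 : (0 : ℝ) < m := by exact_mod_cast hm
    have hsm : 0 < √(m : ℝ) := Real.sqrt_pos.2 hm0
    have hsq : √((4 * d : ℝ) / m) = √(4 * d : ℝ) / √(m : ℝ) := Real.sqrt_div (by positivity) _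
    have hV : (0 : ℝ) ≤ ((2 * L + 1 : ℕ) : ℝ) ^ d := by positivity
    have hsm1 : sm ≤ K ^ (2 * (d * n) + 1) *
        (((2 * (d * n) : ℕ) : ℝ) * (3 * (8 * ((2 * L + 1 : ℕ) : ℝ) ^ d * √((4 * d : ℝ) / m)))) := by
      have e : K ^ (2 * (d * n) + 1) * (p : ℝ) ^ (2 * (d * n) + 1) = 1 := by
        rw [← mul_pow, hK, one_div, inv_mul_cancel₀ hp0.ne', one_pow]
      calc sm = K ^ (2 * (d * n) + 1) * ((p : ℝ) ^ (2 * (d * n) + 1) * sm) := by
            rw [← mul_assoc, e, one_mul]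
        _ ≤ _ := mul_le_mul_of_nonneg_left hc (by positivity)
    refine hsm1.trans ?_
    rw [hsq]
    have hK2 : K ^ (2 * (d * n) + 1) ≤ (K ^ (2 * d + 1)) ^ (n + 1) := by
      rw [← pow_mul]
      refine pow_le_pow_right₀ hK1 ?_
      nlinarith [Nat.zero_le d, Nat.zero_le n]
    have ha2 : a ≤ a ^ (n + 1) := by
      calc a = a ^ 1 := (pow_one a).symm
        _ ≤ a ^ (n + 1) := pow_le_pow_right₀ ha1 (by omega)
    have hb2 : b ≤ b ^ (n + 1) := by
      calc b = b ^ 1 := (pow_one b).symm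
        _ ≤ b ^ (n + 1) := pow_le_pow_right₀ hb1 (by omega)
    have h2n : (n : ℝ) ≤ 2 ^ (n + 1) := by
      have h2' : n < 2 ^ n := Nat.lt_two_pow_self
      have h2'' : n ≤ 2 ^ (n + 1) := by
        rw [pow_succ]; omega
      exact_mod_cast h2''
    have hd0 : (0 : ℝ) ≤ d := by positivity
    have hn0 : (0 : ℝ) ≤ n := by positivity
    have hs0 : 0 ≤ √(4 * d : ℝ) := Real.sqrt_nonneg _
    have key : K ^ (2 * (d * n) + 1) * (48 * d * n) * √(4 * d : ℝ) ≤
        (K ^ (2 * d + 1) * a * b * 2) ^ (n + 1) := by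
      have e : (K ^ (2 * d + 1) * a * b * 2) ^ (n + 1) =
          (K ^ (2 * d + 1)) ^ (n + 1) * (a ^ (n + 1) * 2 ^ (n + 1)) * b ^ (n + 1) := by
        rw [mul_pow, mul_pow, mul_pow]; ring
      rw [e]
      have f1 : 48 * (d : ℝ) * n ≤ a ^ (n + 1) * 2 ^ (n + 1) := by
        refine mul_le_mul (le_trans (by rw [ha]; linarith) ha2) h2n hn0 (by positivity)
      have f2 : √(4 * d : ℝ) ≤ b ^ (n + 1) := le_trans (by rw [hb]; linarith) hb2
      refine mul_le_mul (mul_le_mul hK2 f1 (by positivity) (by positivity)) f2 hs0 (by positivity)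
    have hfin : K ^ (2 * (d * n) + 1) * (((2 * (d * n) : ℕ) : ℝ) *
        (3 * (8 * ((2 * L + 1 : ℕ) : ℝ) ^ d * (√(4 * d : ℝ) / √(m : ℝ))))) =
        (K ^ (2 * (d * n) + 1) * (48 * d * n) * √(4 * d : ℝ)) *
          ((((2 * L + 1 : ℕ) : ℝ) ^ d) / √(m : ℝ)) := by
      push_cast; ring
    rw [hfin]
    calc (K ^ (2 * (d * n) + 1) * (48 * d * n) * √(4 * d : ℝ)) *
          ((((2 * L + 1 : ℕ) : ℝ) ^ d) / √(m : ℝ))
        ≤ (K ^ (2 * d + 1) * a * b * 2) ^ (n + 1) *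
          ((((2 * L + 1 : ℕ) : ℝ) ^ d) / √(m : ℝ)) :=
          mul_le_mul_of_nonneg_right key (by positivity)
      _ = _ := by ring

end

end Pool.Agent.Y689.CB
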