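import Pool.Agent.Y990.CB.Stm

set_option autoImplicit false

/-!
Influence bound through explorations (project CB of helper990): proof of `S_ibp`.
-/

namespace Pool.Agent.Y689.CB

open H974 (Ex Ok ind Pr)
open Pool.Agent.Y990.PL (Expl)
open Pool.Agent.Y990.CB (Nf S_ibp)

section

variable {E : Type} [DecidableEq E]

/-- Second moment inequality. -/
lemma ex_sq {p : E → ℝ} (hp : Ok p) (S : Finset E) (a : Finset E → ℝ) :
    (Ex p S a) ^ 2 ≤ Ex p S (fun A => (a A) ^ 2) := by
  set μ := Ex p S a with hμ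
  have h0 : 0 ≤ Ex p S (fun A => (a A - μ) ^ 2) :=
    H974.Ex_nonneg hp fun A _ => sq_nonneg _
  have h1 : Ex p S (fun A => (a A - μ) ^ 2) =
      Ex p S (fun A => (a A) ^ 2) - μ ^ 2 := by
    have e : (fun A => (a A - μ) ^ 2) =
        fun A => ((a A) ^ 2 - (2 * μ) * a A) + μ ^ 2 := by
      funext A; ring
    rw [e, H974.Ex_add, H974.Ex_sub, H974.Ex_mul_left, H974.Ex_const, ← hμ]
    ring
  linarith

/-- Integration by parts for one coordinate. -/
lemma ibp_one (p : E → ℝ) {S : Finset E} {c : E} (hc : c ∈ S) (g : Finset E → ℝ) :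
    Ex p S (fun A => g A * (p c - ind (c ∈ A))) =
      p c * (1 - p c) * Ex p S (fun A => g (A.erase c) - g (insert c A)) := by
  have hS : S = insert c (S.erase c) := (Finset.insert_erase hc).symm
  have hn : c ∉ S.erase c := Finset.notMem_erase c S
  rw [hS, H974.Ex_insert p hn, H974.Ex_insert p hn]
  have h1 : Ex p (S.erase c) (fun F => g (insert c F) * (p c - ind (c ∈ insert c F))) =
      Ex p (S.erase c) (fun F => g (insert c F)) * (p c - 1) := by
    rw [← H974.Ex_mul_right]
    refine H974.Ex_congr fun F _ => ?_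
    rw [H974.ind_of (Finset.mem_insert_self c F)]
  have h2 : Ex p (S.erase c) (fun F => g F * (p c - ind (c ∈ F))) =
      Ex p (S.erase c) (fun F => g F) * p c := by
    rw [← H974.Ex_mul_right]
    refine H974.Ex_congr fun F hF => ?_
    have : c ∉ F := fun h => hn (hF h)
    rw [H974.ind_not_of this, sub_zero]
  have h3 : Ex p (S.erase c) (fun F => g ((insert c F).erase c) - g (insert c (insert c F))) =
      Ex p (S.erase c) (fun F => g F) - Ex p (S.erase c) (fun F => g (insert c F)) := by
    rw [← H974.Ex_sub]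
    refine H974.Ex_congr fun F hF => ?_
    have : c ∉ F := fun h => hn (hF h)
    rw [Finset.erase_insert this, Finset.insert_idem]
  have h4 : Ex p (S.erase c) (fun F => g (F.erase c) - g (insert c F)) =
      Ex p (S.erase c) (fun F => g F) - Ex p (S.erase c) (fun F => g (insert c F)) := by
    rw [← H974.Ex_sub]
    refine H974.Ex_congr fun F hF => ?_
    have : c ∉ F := fun h => hn (hF h)
    rw [Finset.erase_eq_of_notMem this]
  rw [h1, h2, h3, h4]
  ring

/-- Only the coordinates touching the cluster count. -/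
lemma ibp_touch {W : Type} {p : E → ℝ} {S : Finset E} {v : ℝ} {X : Finset E → Set W}
    {t : E → Set W → Prop} (hX : Expl S p v X t) {c : E} (hc : c ∈ S)
    (f : Finset E → ℝ) (hf : ∀ A A', X A = X A' → f A = f A') :
    Ex p S (fun A => f A * (p c - ind (c ∈ A))) =
      Ex p S (fun A => f A * (ind (t c (X A)) * (p c - ind (c ∈ A)))) := by
  have h0 : Ex p S (fun A => (f A * ind (¬ t c (X A))) * (p c - ind (c ∈ A))) = 0 := by
    rw [ibp_one p hc (fun A => f A * ind (¬ t c (X A)))]
    have : Ex p S (fun A => f (A.erase c) * ind (¬ t c (X (A.erase c))) -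
        f (insert c A) * ind (¬ t c (X (insert c A)))) = Ex p S (fun _ => (0 : ℝ)) := by
      refine H974.Ex_congr fun A hA => ?_
      have hA0 : A.erase c ⊆ S := (Finset.erase_subset c A).trans hA
      have hins : insert c A = insert c (A.erase c) := by
        ext x
        by_cases hx : x = c
        · simp [hx]
        · simp [hx]
      have hsub : A.erase c ⊆ insert c A := (Finset.erase_subset c A).trans (Finset.subset_insert c A)
      by_cases h : t c (X (A.erase c))
      · have h' : t c (X (insert c A)) := hX.tmono c _ _ (hX.mono _ _ hsub) h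
        rw [H974.ind_not_of (not_not.mpr h), H974.ind_not_of (not_not.mpr h')]
        ring
      · have he : X (insert c A) = X (A.erase c) := by
          refine hX.stop _ _ hsub (Finset.insert_subset hc hA) ?_
          intro e he he'
          rw [hins, Finset.mem_insert] at he
          rcases he with he | he
          · rw [he]; exact h
          · exact absurd he he'
        rw [he, hf _ _ he]
        ring
    rw [this, H974.Ex_const, mul_zero]
  have h1 : Ex p S (fun A => f A * (p c - ind (c ∈ A))) =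
      Ex p S (fun A => f A * (ind (t c (X A)) * (p c - ind (c ∈ A)))) +
      Ex p S (fun A => (f A * ind (¬ t c (X A))) * (p c - ind (c ∈ A))) := by
    rw [← H974.Ex_add]
    refine H974.Ex_congr fun A _ => ?_
    rw [H974.ind_not]
    ring
  rw [h1, h0, add_zero]

lemma geo_le (J : ℕ) : ∑ j ∈ Finset.range J, (2 : ℝ) ^ (j + 1) / 4 ^ j ≤ 4 - 4 / 2 ^ J := by
  induction J with
  | zero => simp
  | succ J ih =>
    rw [Finset.sum_range_succ]
    have h4 : (4 : ℝ) ^ J = 2 ^ J * 2 ^ J := by
      rw [← mul_pow]; norm_num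
    have h2 : (0 : ℝ) < 2 ^ J := by positivity
    have : (2 : ℝ) ^ (J + 1) / 4 ^ J = 2 / 2 ^ J := by
      rw [h4, pow_succ]
      field_simp
    rw [this]
    have h5 : (4 : ℝ) / 2 ^ (J + 1) = 2 / 2 ^ J := by
      rw [pow_succ]
      field_simp
      norm_num
    rw [h5]
    have h6 : (4 : ℝ) / 2 ^ J = 2 / 2 ^ J + 2 / 2 ^ J := by
      rw [← add_div]; norm_num
    linarith

/-- Dyadic decomposition according to the size. -/
lemma dyadic {p : E → ℝ} (hp : Ok p) (S : Finset E) (q : Finset E → ℕ) (Z : Finset E → ℝ)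
    (m N : ℕ) (hm : 1 ≤ m) (hq : ∀ A, q A ≤ N) (v : ℝ) (hv : 0 ≤ v)
    (h : ∀ T : ℕ, Ex p S (fun A => ind (q A < T) * (Z A) ^ 2) ≤ v * T) :
    Ex p S (fun A => (1 : ℝ) / (max m (q A) : ℕ) * Z A) ≤ 8 * √(v / m) := by
  have hm0 : (0 : ℝ) < m := by exact_mod_cast hm
  -- first moments
  have hT : ∀ T : ℕ, Ex p S (fun A => ind (q A < T) * |Z A|) ≤ √(v * T) := by
    intro T
    have h1 := ex_sq hp S (fun A => ind (q A < T) * |Z A|)
    have h2 : Ex p S (fun A => (ind (q A < T) * |Z A|) ^ 2) =
        Ex p S (fun A => ind (q A < T) * (Z A) ^ 2) := by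
      refine H974.Ex_congr fun A _ => ?_
      rw [mul_pow, sq_abs, pow_two (ind (q A < T)), H974.ind_sq]
    rw [h2] at h1
    exact Real.le_sqrt_of_sq_le (h1.trans (h T))
  -- pointwise bound
  have hpt : ∀ A, (1 : ℝ) / (max m (q A) : ℕ) * Z A ≤
      1 / m * (ind (q A < m) * |Z A|) + ∑ j ∈ Finset.range N,
        1 / (m * 4 ^ j) * (ind (q A < m * 4 ^ (j + 1)) * |Z A|) := by
    intro A
    have hZ : Z A ≤ |Z A| := le_abs_self _
    have hZ0 : 0 ≤ |Z A| := abs_nonneg _
    have hterm : ∀ j ∈ Finset.range N, 0 ≤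
        1 / ((m : ℝ) * 4 ^ j) * (ind (q A < m * 4 ^ (j + 1)) * |Z A|) := by
      intro j _
      have := H974.ind_nonneg (q A < m * 4 ^ (j + 1))
      positivity
    have hle : (1 : ℝ) / (max m (q A) : ℕ) * Z A ≤ (1 : ℝ) / (max m (q A) : ℕ) * |Z A| :=
      mul_le_mul_of_nonneg_left hZ (by positivity)
    refine hle.trans ?_
    by_cases hc : q A < m
    · have e : max m (q A) = m := max_eq_left hc.le
      rw [e, H974.ind_of hc, one_mul]
      linarith [Finset.sum_nonneg hterm]
    · push Not at hc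
      have e : max m (q A) = q A := max_eq_right hc
      rw [e, H974.ind_not_of (not_lt.mpr hc), zero_mul, mul_zero, zero_add]
      -- choose the scale
      set j := Nat.log 4 (q A / m) with hj
      have hd : q A / m ≠ 0 := by
        have : 1 ≤ q A / m := (Nat.one_le_div_iff (by omega)).mpr hc
        omega
      have hj1 : 4 ^ j ≤ q A / m := Nat.pow_log_le_self 4 hd
      have hj2 : q A / m < 4 ^ (j + 1) := Nat.lt_pow_succ_log_self (by norm_num) _
      have hj1' : m * 4 ^ j ≤ q A := by
        calc m * 4 ^ j ≤ m * (q A / m) := Nat.mul_le_mul_left _ hj1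
          _ ≤ q A := Nat.mul_div_le _ _
      have hj2' : q A < m * 4 ^ (j + 1) := by
        have := (Nat.div_lt_iff_lt_mul (by omega : 0 < m)).mp hj2
        rwa [mul_comm] at this
      have hjN : j < N := by
        have h1 : 4 ^ j ≤ N := by
          calc 4 ^ j ≤ m * 4 ^ j := Nat.le_mul_of_pos_left _ (by omega)
            _ ≤ q A := hj1'
            _ ≤ N := hq A
        exact lt_of_lt_of_le (Nat.lt_pow_self (by norm_num)) h1
      have hs := Finset.single_le_sum hterm (Finset.mem_range.mpr hjN)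
      refine le_trans ?_ hs
      rw [H974.ind_of hj2', one_mul]
      refine mul_le_mul_of_nonneg_right ?_ hZ0
      apply one_div_le_one_div_of_le
      · positivity
      · exact_mod_cast hj1'
  have h1 := H974.Ex_mono hp (S := S) (fun A _ => hpt A)
  refine h1.trans ?_
  rw [H974.Ex_add, H974.Ex_sum, H974.Ex_mul_left]
  have hs0 : √(v / m) = √(v * m) / m := by
    rw [show v / (m : ℝ) = (v * m) / (m : ℝ) ^ 2 by field_simp, Real.sqrt_div' _ (by positivity),
      Real.sqrt_sq hm0.le]
  have hA : 1 / (m : ℝ) * Ex p S (fun A => ind (q A < m) * |Z A|) ≤ √(v / m) := by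
    rw [hs0, one_div, inv_mul_eq_div]
    exact div_le_div_of_nonneg_right (hT m) hm0.le
  have hB : ∀ j ∈ Finset.range N, Ex p S (fun A => 1 / ((m : ℝ) * 4 ^ j) *
      (ind (q A < m * 4 ^ (j + 1)) * |Z A|)) ≤ √(v / m) * (2 ^ (j + 1) / 4 ^ j) := by
    intro j _
    rw [H974.Ex_mul_left]
    have h2 := hT (m * 4 ^ (j + 1))
    have h3 : √(v * ((m * 4 ^ (j + 1) : ℕ) : ℝ)) = √(v * m) * 2 ^ (j + 1) := by
      push_cast
      rw [← mul_assoc, Real.sqrt_mul' _ (by positivity)]
      congr 1
      rw [show (4 : ℝ) ^ (j + 1) = (2 ^ (j + 1)) ^ 2 by rw [← pow_mul, mul_comm, pow_mul]; norm_num]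
      exact Real.sqrt_sq (by positivity)
    rw [h3] at h2
    calc 1 / ((m : ℝ) * 4 ^ j) * Ex p S (fun A => ind (q A < m * 4 ^ (j + 1)) * |Z A|)
        ≤ 1 / ((m : ℝ) * 4 ^ j) * (√(v * m) * 2 ^ (j + 1)) :=
          mul_le_mul_of_nonneg_left h2 (by positivity)
      _ = √(v / m) * (2 ^ (j + 1) / 4 ^ j) := by
          rw [hs0]
          field_simp
  have hC := Finset.sum_le_sum hB
  rw [← Finset.mul_sum] at hC
  have hD := geo_le N
  have hE : (0 : ℝ) ≤ 4 / 2 ^ N := by positivity
  have hF : √(v / m) * ∑ j ∈ Finset.range N, (2 : ℝ) ^ (j + 1) / 4 ^ j ≤ √(v / m) * 4 :=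
    mul_le_mul_of_nonneg_left (by linarith) (Real.sqrt_nonneg _)
  have hG : 0 ≤ √(v / m) := Real.sqrt_nonneg _
  linarith

end

/-- IBP. -/
theorem ibp : S_ibp := by
  intro E W _ S p v B C t hp hv hX hCB hu m hm
  -- one class
  have key : ∀ u ∈ B, ∑ c ∈ S, p c * (1 - p c) *
      Ex p S (fun A => (1 : ℝ) / (max m (C u (A.erase c)).ncard : ℕ) -
        (1 : ℝ) / (max m (C u (insert c A)).ncard : ℕ)) ≤ 8 * √(v / m) := by
    intro u huB
    have hXu := hX u huB
    have h1 : ∀ c ∈ S, p c * (1 - p c) *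
        Ex p S (fun A => (1 : ℝ) / (max m (C u (A.erase c)).ncard : ℕ) -
        (1 : ℝ) / (max m (C u (insert c A)).ncard : ℕ)) =
        Ex p S (fun A => (1 : ℝ) / (max m (C u A).ncard : ℕ) *
          (ind (t c (C u A)) * (p c - ind (c ∈ A)))) := by
      intro c hc
      rw [← ibp_touch hXu hc (fun A => (1 : ℝ) / (max m (C u A).ncard : ℕ))
        (fun A A' h => by simp only [h])]
      rw [ibp_one p hc (fun A => (1 : ℝ) / (max m (C u A).ncard : ℕ))]
    rw [Finset.sum_congr rfl h1, ← H974.Ex_sum]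
    have h2 : Ex p S (fun A => ∑ c ∈ S, (1 : ℝ) / (max m (C u A).ncard : ℕ) *
          (ind (t c (C u A)) * (p c - ind (c ∈ A)))) =
        Ex p S (fun A => (1 : ℝ) / (max m (C u A).ncard : ℕ) *
          ∑ c ∈ S, (ind (t c (C u A)) * (p c - ind (c ∈ A)))) := by
      refine H974.Ex_congr fun A _ => ?_
      rw [Finset.mul_sum]
    rw [h2]
    have hfin : ∀ A, (C u A).Finite := fun A => (Finset.finite_toSet B).subset (hCB u huB A)
    refine dyadic hp S (fun A => (C u A).ncard)
      (fun A => ∑ c ∈ S, (ind (t c (C u A)) * (p c - ind (c ∈ A)))) m B.card hm ?_ v hv ?_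
    · intro A
      have := Set.ncard_le_ncard (hCB u huB A) (Finset.finite_toSet B)
      rwa [Set.ncard_coe_finset] at this
    · intro T
      have h3 := Pool.Agent.Y990.PL.secmom hp hXu hv T
      have h4 : Ex p S (fun A => ind ((C u A).ncard < T) *
          (∑ c ∈ S, ind (t c (C u A)) * (p c - ind (c ∈ A))) ^ 2) =
          Ex p S (fun A => ind ((C u A).encard < T) *
          (∑ e ∈ S, ind (t e (C u A)) * (p e - ind (e ∈ A))) ^ 2) := by
        refine H974.Ex_congr fun A _ => ?_
        congr 1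
        refine H974.ind_congr ?_
        rw [← (hfin A).cast_ncard_eq]
        exact (Nat.cast_lt).symm
      rw [h4]
      refine h3.trans ?_
      refine mul_le_mul_of_nonneg_left ?_ hv
      refine H974.Ex_le_of_le hp fun A _ => ?_
      exact_mod_cast Pool.Agent.Y990.PL.sz_le T (C u A)
  -- sum over the classes
  have h5 : ∀ c ∈ S, p c * (1 - p c) *
      Ex p S (fun A => Nf m B C (A.erase c) - Nf m B C (insert c A)) =
      ∑ u ∈ B, p c * (1 - p c) *
      Ex p S (fun A => (1 : ℝ) / (max m (C u (A.erase c)).ncard : ℕ) -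
        (1 : ℝ) / (max m (C u (insert c A)).ncard : ℕ)) := by
    intro c _
    rw [← Finset.mul_sum, ← H974.Ex_sum]
    congr 1
    refine H974.Ex_congr fun A _ => ?_
    unfold Nf
    rw [Finset.sum_sub_distrib]
  rw [Finset.sum_congr rfl h5, Finset.sum_comm]
  have h6 := Finset.sum_le_sum key
  rw [Finset.sum_const, nsmul_eq_mul] at h6
  linarith

end Pool.Agent.Y689.CB
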